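import Pool.Agent.Helper28_TP.DyS
import Pool.Agent.Helper28_TP.Inst

/-! # GLUE: resampling the future steps preserves the law -/

set_option autoImplicit false

namespace Pool.Agent.TP.H79

open MeasureTheory ProbabilityTheory Pool.Agent.TP

/-- Coordinatewise measure preserving maps of two independent families. -/
theorem mp_zip {ι : Type} {X Y Z : ι → Type} [∀ i, MeasurableSpace (X i)]
    [∀ i, MeasurableSpace (Y i)] [∀ i, MeasurableSpace (Z i)] (μ : ∀ i, Measure (X i))
    (ν : ∀ i, Measure (Y i)) (ρ : ∀ i, Measure (Z i)) [∀ i, IsProbabilityMeasure (μ i)]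
    [∀ i, IsProbabilityMeasure (ν i)] [∀ i, IsProbabilityMeasure (ρ i)]
    (F : ∀ i, X i × Y i → Z i) (hF : ∀ i, MeasurePreserving (F i) ((μ i).prod (ν i)) (ρ i)) :
    MeasurePreserving (fun x : (∀ i, X i) × (∀ i, Y i) => fun i => F i (x.1 i, x.2 i))
      ((Measure.infinitePi μ).prod (Measure.infinitePi ν)) (Measure.infinitePi ρ) := by
  have hm : ∀ i, Measurable (F i) := fun i => (hF i).measurable
  have hM : Measurable (fun x : (∀ i, X i) × (∀ i, Y i) => fun i => F i (x.1 i, x.2 i)) := by
    refine measurable_pi_lambda _ fun i => (hm i).comp ?_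
    fun_prop
  refine ⟨hM, ?_⟩
  refine Measure.eq_infinitePi _ fun s t ht => ?_
  have hpi : MeasurableSet (Set.pi (s : Set ι) t) :=
    MeasurableSet.pi s.countable_toSet (fun i _ => ht i)
  rw [Measure.map_apply hM hpi, Measure.prod_apply (hM hpi)]
  have h1 : ∀ x : ∀ i, X i, (Measure.infinitePi ν) (Prod.mk x ⁻¹'
      ((fun x : (∀ i, X i) × (∀ i, Y i) => fun i => F i (x.1 i, x.2 i)) ⁻¹'
        (Set.pi (s : Set ι) t))) = ∏ i ∈ s, ν i {y | F i (x i, y) ∈ t i} := by
    intro x
    rw [← Measure.infinitePi_pi ν (s := s) (t := fun i => {y | F i (x i, y) ∈ t i})]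
    · congr 1
    · intro i _
      exact (hm i).comp (measurable_const.prodMk measurable_id) (ht i)
  simp_rw [h1]
  have hg : ∀ i, Measurable (fun x : X i => ν i {y | F i (x, y) ∈ t i}) := fun i =>
    measurable_measure_prodMk_left (hm i (ht i))
  have h2 := lintegral_prod_eq_prod_lintegral_of_indepFun s
    (fun i (x : ∀ i, X i) => ν i {y | F i (x i, y) ∈ t i})
    (iIndepFun_infinitePi (P := μ) (X := fun i x => ν i {y | F i (x, y) ∈ t i}) hg)
    (fun i => (hg i).comp (measurable_pi_apply i))
  rw [h2]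
  refine Finset.prod_congr rfl fun i _ => ?_
  have h3 : ∫⁻ x, ν i {y | F i (x i, y) ∈ t i} ∂(Measure.infinitePi μ) =
      ∫⁻ x, ν i {y | F i (x, y) ∈ t i} ∂(μ i) := by
    conv_rhs => rw [← Measure.infinitePi_map_eval μ i]
    rw [lintegral_map (hg i) (measurable_pi_apply i)]
  rw [h3, ← (hF i).measure_preimage (ht i).nullMeasurableSet,
    Measure.prod_apply (hm i (ht i))]
  rfl

/-- The first components are kept from the first family. -/
theorem mp_keep {A A' X Y Z : Type} [MeasurableSpace A] [MeasurableSpace A'] [MeasurableSpace X]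
    [MeasurableSpace Y] [MeasurableSpace Z] (p : Measure A) (p' : Measure A') (μ : Measure X)
    (ν : Measure Y) (ρ : Measure Z) [IsProbabilityMeasure p] [IsProbabilityMeasure p']
    [IsProbabilityMeasure μ] [IsProbabilityMeasure ν] [IsProbabilityMeasure ρ] (G : X × Y → Z)
    (hG : MeasurePreserving G (μ.prod ν) ρ) :
    MeasurePreserving (fun x : (A × X) × (A' × Y) => (x.1.1, G (x.1.2, x.2.2)))
      ((p.prod μ).prod (p'.prod ν)) (p.prod ρ) := by
  have hm := hG.measurable
  have hM : Measurable (fun x : (A × X) × (A' × Y) => (x.1.1, G (x.1.2, x.2.2))) := by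
    fun_prop
  refine ⟨hM, ?_⟩
  symm
  refine Measure.prod_eq fun s t hs ht => ?_
  rw [Measure.map_apply hM (hs.prod ht), Measure.prod_apply (hM (hs.prod ht))]
  have h1 : ∀ x : A × X, (p'.prod ν) (Prod.mk x ⁻¹'
      ((fun x : (A × X) × (A' × Y) => (x.1.1, G (x.1.2, x.2.2))) ⁻¹' (s ×ˢ t))) =
      s.indicator 1 x.1 * ν {y | G (x.2, y) ∈ t} := by
    intro x
    by_cases hx : x.1 ∈ s
    · rw [Set.indicator_of_mem hx, Pi.one_apply, one_mul]
      have : (Prod.mk x ⁻¹' ((fun x : (A × X) × (A' × Y) => (x.1.1, G (x.1.2, x.2.2))) ⁻¹'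
          (s ×ˢ t))) = (Set.univ : Set A') ×ˢ {y | G (x.2, y) ∈ t} := by
        ext y
        simp [hx]
      rw [this, Measure.prod_prod, measure_univ, one_mul]
    · rw [Set.indicator_of_notMem hx, zero_mul]
      have : (Prod.mk x ⁻¹' ((fun x : (A × X) × (A' × Y) => (x.1.1, G (x.1.2, x.2.2))) ⁻¹'
          (s ×ˢ t))) = ∅ := by
        ext y
        simp [hx]
      rw [this, measure_empty]
  simp_rw [h1]
  have hg : Measurable (fun x : X => ν {y | G (x, y) ∈ t}) :=
    measurable_measure_prodMk_left (hm ht)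
  rw [lintegral_prod_mul (f := s.indicator 1) (g := fun x => ν {y | G (x, y) ∈ t})
    ((measurable_one.indicator hs).aemeasurable) hg.aemeasurable, lintegral_indicator_one hs]
  congr 1
  rw [← hG.measure_preimage ht.nullMeasurableSet, Measure.prod_apply (hm ht)]
  rfl

theorem glue : GlueStmt := by
  intro k lam s T
  have h1 : MeasurePreserving (fun x : (ℕ → Sp k) × (ℕ → Sp k) => fun i =>
      if i < T then x.1 i else x.2 i) ((walkLaw k s).prod (walkLaw k s)) (walkLaw k s) := by
    have := mp_zip (fun _ : ℕ => stepLaw k s) (fun _ => stepLaw k s) (fun _ => stepLaw k s)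
      (fun i x => if i < T then x.1 else x.2) (fun i => by
        by_cases h : i < T
        · simp only [h, if_true]
          exact measurePreserving_fst
        · simp only [h, if_false]
          exact measurePreserving_snd)
    exact this
  have h2 : MeasurePreserving (fun x : Mk k × Mk k => (x.1.1, fun i =>
      if i < T then x.1.2 i else x.2.2 i)) ((markLaw k s).prod (markLaw k s)) (markLaw k s) :=
    mp_keep (unif k) (unif k) (walkLaw k s) (walkLaw k s) (walkLaw k s) _ h1
  have h3 : MeasurePreserving (fun x : (ℕ → Mk k) × (ℕ → Mk k) => fun j =>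
      ((x.1 j).1, fun i => if i < T then (x.1 j).2 i else (x.2 j).2 i))
      ((Measure.infinitePi (fun _ => markLaw k s)).prod (Measure.infinitePi (fun _ => markLaw k s)))
      (Measure.infinitePi (fun _ => markLaw k s)) :=
    mp_zip (fun _ : ℕ => markLaw k s) (fun _ => markLaw k s) (fun _ => markLaw k s) _
      (fun _ => h2)
  have h4 := fun z : Pt k => mp_keep (poissonMeasure (Real.toNNReal lam))
    (poissonMeasure (Real.toNNReal lam)) (Measure.infinitePi (fun _ => markLaw k s))
    (Measure.infinitePi (fun _ => markLaw k s)) (Measure.infinitePi (fun _ => markLaw k s)) _ h3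
  exact mp_zip (fun _ : Pt k => (poissonMeasure (Real.toNNReal lam)).prod
    (Measure.infinitePi (fun _ => markLaw k s))) _ _ _ h4

end Pool.Agent.TP.H79
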