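import Pool.Agent.Helper28_TP.DyS
import Pool.Agent.Helper28_TP.Inst

/-! # STAT: the occupied cells at a fixed time -/

set_option autoImplicit false

namespace Pool.Agent.TP.H79

open MeasureTheory ProbabilityTheory Pool.Agent.TP

variable {k : ℕ}

theorem cube_eq (y : Sp k) (κ : ℝ) :
    cube y κ = Set.pi Set.univ (fun a => Set.Ico (y a) (y a + κ)) := by
  ext x
  simp [cube]

theorem measurableSet_cube (y : Sp k) (κ : ℝ) : MeasurableSet (cube y κ) := by
  rw [cube_eq]
  exact MeasurableSet.univ_pi fun a => measurableSet_Ico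

theorem volume_cube (y : Sp k) (κ : ℝ) :
    volume (cube y κ) = ENNReal.ofReal κ ^ (k + 2) := by
  rw [cube_eq, Real.volume_pi_Ico]
  simp

theorem cel_disj {h : ℝ} (hh : 0 < h) (w : Sp k) {c c' : Pt k} (hne : c ≠ c') :
    Disjoint (cel h w c) (cel h w c') := by
  rw [Set.disjoint_left]
  intro x hx hx'
  apply hne
  funext a
  have h1 := hx a
  have h2 := hx' a
  simp only at h1 h2
  have h3 : h * (c a : ℝ) < h * (c' a + 1) := by linarith [h1.1, h2.2]
  have h4 : h * (c' a : ℝ) < h * (c a + 1) := by linarith [h1.2, h2.1]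
  have h5 := lt_of_mul_lt_mul_left h3 hh.le
  have h6 := lt_of_mul_lt_mul_left h4 hh.le
  have h7 : c a < c' a + 1 := by exact_mod_cast h5
  have h8 : c' a < c a + 1 := by exact_mod_cast h6
  omega

theorem volume_cells {h : ℝ} (hh : 0 < h) (w : Sp k) (S : Finset (Pt k)) :
    volume (⋃ c ∈ S, cel h w c) = S.card * ENNReal.ofReal h ^ (k + 2) := by
  rw [measure_biUnion_finset]
  · simp only [cel, volume_cube, Finset.sum_const, nsmul_eq_mul]
  · intro c _ c' _ hne
    exact cel_disj hh w hne
  · intro c _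
    exact measurableSet_cube _ _

/-- Mean number of visitors of a set. -/
theorem mean_visit (s : ℝ) (i : ℕ) {U : Set (Sp k)} (hU : MeasurableSet U) :
    ∫⁻ x, walkLaw k s {y | walk x y i ∈ U} = volume U := by
  have hm : MeasurableSet {p : Sp k × (ℕ → Sp k) | walk p.1 p.2 i ∈ U} := measurable_walk i hU
  have h1 : ∫⁻ x, walkLaw k s {y | walk x y i ∈ U} =
      ((volume : Measure (Sp k)).prod (walkLaw k s)) {p | walk p.1 p.2 i ∈ U} := by
    rw [Measure.prod_apply hm]
    rfl
  rw [h1, Measure.prod_apply_symm hm]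
  have h2 : ∀ y : ℕ → Sp k, volume ((fun x => (x, y)) ⁻¹'
      {p : Sp k × (ℕ → Sp k) | walk p.1 p.2 i ∈ U}) = volume U := by
    intro y
    have : ((fun x => (x, y)) ⁻¹' {p : Sp k × (ℕ → Sp k) | walk p.1 p.2 i ∈ U}) =
        (fun x => x + fun a => ∑ j ∈ Finset.range i, y j a) ⁻¹' U := by
      rfl
    rw [this, measure_preimage_add_right]
  simp_rw [h2]
  simp

open Classical in
theorem stat (hMe : MeasStmt) (hVoi : VoiStmt) (hVoid : VoidStmt) : StatStmt := by
  intro k lam s h hlam hh w i V E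
  set q : Pt k → ℝ := fun _ => 1 - Real.exp (-(lam * h ^ (k + 2))) with hq
  have hx : 0 ≤ lam * h ^ (k + 2) := by positivity
  have hU : U01 V q := by
    intro a _
    simp only [hq]
    constructor
    · have := Real.exp_le_one_iff.2 (neg_nonpos.2 hx)
      linarith
    · have := Real.exp_pos (-(lam * h ^ (k + 2)))
      linarith
  refine hVoi (Cf k) (confLaw k lam s) (Pt k) V q
    (fun ω => V.filter (fun c => c ∈ occ h w i ω)) hU (fun ω => Finset.filter_subset _ _)
    (fun a ha => ?_) (fun S hS => ?_) E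
  · have : {ω : Cf k | a ∈ V.filter (fun c => c ∈ occ h w i ω)} =
        {ω : Cf k | a ∈ occ h w i ω} := by
      ext ω
      simp [ha]
    rw [this]
    exact (hMe k).1 h w i a
  · set U : Set (Sp k) := ⋃ c ∈ S, cel h w c with hUdef
    have hUm : MeasurableSet U := by
      rw [hUdef]
      exact S.measurableSet_biUnion fun c _ => measurableSet_cube _ _
    set 𝒜 : Set (Sp k × (ℕ → Sp k)) := {p | walk p.1 p.2 i ∈ U} with hA
    have hAm : MeasurableSet 𝒜 := measurable_walk i hUm
    have hmean : ∫⁻ x, walkLaw k s {y | (x, y) ∈ 𝒜} = S.card * ENNReal.ofReal h ^ (k + 2) := by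
      rw [← volume_cells hh w S]
      exact mean_visit s i hUm
    have hset : {ω : Cf k | Disjoint S (V.filter (fun c => c ∈ occ h w i ω))} =
        {ω : Cf k | ∀ v, alive ω v →
          ((fun a => (v.1 a : ℝ) + ((ω v.1).2 v.2).1 a : Sp k), ((ω v.1).2 v.2).2) ∉ 𝒜} := by
      ext ω
      simp only [Set.mem_ofPred_eq, Finset.disjoint_left, Finset.mem_filter, not_and, hA, hUdef,
        Set.mem_iUnion, not_exists]
      constructor
      · intro h1 v hv c hc hw
        exact h1 hc (hS hc) ⟨v, hv, hw⟩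
      · rintro h1 c hc _ ⟨v, hv, hw⟩
        exact h1 v hv c hc hw
    have hfin : ∫⁻ x, walkLaw k s {y | (x, y) ∈ 𝒜} ≠ ⊤ := by
      rw [hmean]
      exact ENNReal.mul_ne_top (ENNReal.natCast_ne_top _)
        (ENNReal.pow_ne_top ENNReal.ofReal_ne_top)
    have h1 := hVoid k lam s hlam 𝒜 hAm hfin
    rw [hset, measureReal_def, h1, ENNReal.toReal_ofReal (Real.exp_pos _).le, hmean]
    simp only [ENNReal.toReal_mul, ENNReal.toReal_natCast, ENNReal.toReal_pow,
      ENNReal.toReal_ofReal hh.le, hq, sub_sub_cancel, Finset.prod_const]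
    rw [← Real.exp_nat_mul]
    congr 1
    ring

end Pool.Agent.TP.H79
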